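import Pool.Agent.Work.MP_563a32_gt.AMain
import Pool.Agent.Work.MP_563a32_gt.W3

/-! The least dilatation of pseudo-Anosov maps in genus at least two, up to universal constants. -/

namespace Pool.Agent.Results.MP_563a32_gt.LeastDilatation
open Pool.Agent.Work.MP_563a32_gt

theorem result (g n : ℕ) (hg : 2 ≤ g) :
    (∀ l ∈ Spectrum g n, 1 / 1100 * (Real.log (2 + n / g) / (g + n)) ≤ l) ∧
      ∃ l ∈ Spectrum g n, l ≤ 450 * (Real.log (2 + n / g) / (g + n)) :=
  ⟨fun _ hl => lower g n hg hl, upper hg⟩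

end Pool.Agent.Results.MP_563a32_gt.LeastDilatation
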